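import Pool.Agent.K1H22.DF.Stm

/-! # Vertex-fault-tolerant graphs of diameter four: the lower bound from the degree condition -/

set_option autoImplicit false

open Finset

namespace Pool.Agent.K1H96.DF

open Pool.Agent.K1H22.DF

theorem dc {V : Type} [Fintype V] [DecidableEq V] (G : SimpleGraph V) [DecidableRel G.Adj]
    (P Q : Finset V) :
    ∑ v ∈ P, ((G.neighborFinset v).filter (fun x => x ∈ Q)).card =
      ∑ x ∈ Q, ((G.neighborFinset x).filter (fun v => v ∈ P)).card := by
  have h := Finset.sum_card_bipartiteAbove_eq_sum_card_bipartiteBelow (s := P) (t := Q) G.Adj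
  have e1 : ∀ v, (G.neighborFinset v).filter (fun x => x ∈ Q) = Q.bipartiteAbove G.Adj v := by
    intro v
    ext x
    simp [Finset.mem_bipartiteAbove, and_comm]
  have e2 : ∀ x, (G.neighborFinset x).filter (fun v => v ∈ P) = P.bipartiteBelow G.Adj x := by
    intro x
    ext v
    simp [Finset.mem_bipartiteBelow, and_comm, G.adj_comm]
  simp only [e1, e2]
  exact h

theorem key {V : Type} [Fintype V] [DecidableEq V] (G : SimpleGraph V) [DecidableRel G.Adj]
    (k D C : ℕ) (hk : 1 ≤ k) (hmin : ∀ v, k ≤ G.degree v)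
    (hdeg : C ≤ (univ.filter (fun v => v ∉ hub G D ∧ hn G D v = ∅)).card →
      ∀ v, v ∉ hub G D →
        k ≤ ((G.neighborFinset v).filter (fun x => ¬ (x ∉ hub G D ∧ hn G D x = ∅))).card) :
    (k + 1) * (univ \ hub G D).card ≤ ∑ v, G.degree v + C := by
  obtain ⟨B, hB⟩ : ∃ B, B = univ \ hub G D := ⟨_, rfl⟩
  obtain ⟨Z, hZ⟩ : ∃ Z, Z = univ.filter (fun v => v ∉ hub G D ∧ hn G D v = ∅) := ⟨_, rfl⟩
  rw [← hB]
  rw [← hZ] at hdeg
  have mB : ∀ v, v ∈ B ↔ v ∉ hub G D := by
    intro v; rw [hB]; simp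
  have mZ : ∀ v, v ∈ Z ↔ v ∉ hub G D ∧ hn G D v = ∅ := by
    intro v; rw [hZ]; simp
  have hsplit : ∑ v, G.degree v = ∑ v ∈ B, G.degree v + ∑ v ∈ hub G D, G.degree v := by
    rw [hB, Finset.sum_sdiff (Finset.subset_univ _)]
  -- edges between hubs and the other vertices
  have hH : ∑ v ∈ B, (hn G D v).card ≤ ∑ v ∈ hub G D, G.degree v := by
    unfold hn
    rw [dc G B (hub G D)]
    apply Finset.sum_le_sum
    intro x _
    rw [← G.card_neighborFinset_eq_degree]
    exact Finset.card_filter_le _ _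
  have hone : B.card ≤ ∑ v ∈ B, (hn G D v).card + Z.card := by
    have e1 : B.card = (B.filter (fun v => v ∈ Z)).card + (B.filter (fun v => v ∉ Z)).card :=
      (Finset.card_filter_add_card_filter_not (s := B) (fun v => v ∈ Z)).symm
    have e2 : (B.filter (fun v => v ∈ Z)).card ≤ Z.card :=
      Finset.card_le_card (fun v hv => (Finset.mem_filter.1 hv).2)
    have e3 : (B.filter (fun v => v ∉ Z)).card ≤ ∑ v ∈ B.filter (fun v => v ∉ Z), (hn G D v).card := by
      rw [Finset.card_eq_sum_ones]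
      apply Finset.sum_le_sum
      intro v hv
      rw [Finset.mem_filter, mB, mZ] at hv
      rw [Nat.one_le_iff_ne_zero]
      intro h0
      exact hv.2 ⟨hv.1, Finset.card_eq_zero.1 h0⟩
    have e4 : ∑ v ∈ B.filter (fun v => v ∉ Z), (hn G D v).card ≤ ∑ v ∈ B, (hn G D v).card :=
      Finset.sum_le_sum_of_subset (Finset.filter_subset _ _)
    omega
  rcases lt_or_ge Z.card C with hlt | hge
  · have h1 : k * B.card ≤ ∑ v ∈ B, G.degree v := by
      rw [mul_comm, ← smul_eq_mul, ← Finset.sum_const]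
      exact Finset.sum_le_sum (fun v _ => hmin v)
    rw [add_mul, one_mul, hsplit]
    omega
  · have hd := hdeg hge
    have h1 : k * B.card + ∑ v ∈ B, ((G.neighborFinset v).filter (fun x => x ∈ Z)).card ≤
        ∑ v ∈ B, G.degree v := by
      rw [mul_comm, ← smul_eq_mul, ← Finset.sum_const, ← Finset.sum_add_distrib]
      apply Finset.sum_le_sum
      intro v hv
      have h2 := hd v ((mB v).1 hv)
      have h3 := Finset.card_filter_add_card_filter_not (s := G.neighborFinset v)
        (fun x => x ∈ Z)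
      rw [G.card_neighborFinset_eq_degree] at h3
      have h4 : (G.neighborFinset v).filter (fun x => ¬ (x ∉ hub G D ∧ hn G D x = ∅)) =
          (G.neighborFinset v).filter (fun x => ¬ x ∈ Z) := by
        apply Finset.filter_congr
        intro x _
        rw [mZ]
      rw [h4] at h2
      omega
    have h5 : Z.card ≤ ∑ v ∈ B, ((G.neighborFinset v).filter (fun x => x ∈ Z)).card := by
      rw [dc G B Z, Finset.card_eq_sum_ones]
      apply Finset.sum_le_sum
      intro x hx
      have hx2 := ((mZ x).1 hx).2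
      have h6 : (G.neighborFinset x).filter (fun v => v ∈ B) = G.neighborFinset x := by
        apply Finset.filter_true_of_mem
        intro y hy
        rw [mB]
        intro hyh
        have : y ∈ hn G D x := by
          unfold hn
          exact Finset.mem_filter.2 ⟨hy, hyh⟩
        rw [hx2] at this
        simp at this
      rw [h6, G.card_neighborFinset_eq_degree]
      exact hk.trans (hmin x)
    rw [add_mul, one_mul, hsplit]
    omega

theorem t_L4 (h1 : S_DEG4) (h2 : S_MIN) : S_L4 := by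
  classical
  intro k hk ε hε
  obtain ⟨D, hD⟩ := exists_nat_gt (((k : ℝ) + 1) ^ 2 / ε)
  obtain ⟨C, hC⟩ := h1 k D hk
  obtain ⟨N, hN⟩ := exists_nat_ge ((C : ℝ) / ε)
  refine ⟨max N (k + 1), fun n hn G hG => ?_⟩
  have hn1 : N ≤ n := (le_max_left _ _).trans hn
  have hn2 : k + 1 ≤ n := (le_max_right _ _).trans hn
  have hnR : (0 : ℝ) ≤ n := Nat.cast_nonneg n
  have hDpos : (0 : ℝ) < D := lt_of_le_of_lt (by positivity) hD
  have hmin : ∀ v, k ≤ G.degree v := h2 (Fin n) G 4 k hk (by rw [Fintype.card_fin]; exact hn2) hG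
  have hkey := key G k D C hk hmin (hC (Fin n) G hG)
  have hsum := G.sum_degrees_eq_twice_card_edges
  have hE : G.edgeSet.ncard = G.edgeFinset.card := by
    rw [Set.ncard_eq_toFinset_card']
    rfl
  rw [hE]
  obtain ⟨e, he⟩ : ∃ e, e = G.edgeFinset.card := ⟨_, rfl⟩
  rw [← he] at hsum ⊢
  rw [hsum] at hkey
  have hHD : (hub G D).card * D ≤ 2 * e := by
    rw [← hsum, ← smul_eq_mul, ← Finset.sum_const]
    calc ∑ _v ∈ hub G D, D ≤ ∑ v ∈ hub G D, G.degree v := by
          apply Finset.sum_le_sum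
          intro v hv
          exact (Finset.mem_filter.1 hv).2
      _ ≤ ∑ v, G.degree v := Finset.sum_le_sum_of_subset (Finset.subset_univ _)
  have hBc : (univ \ hub G D).card + (hub G D).card = n := by
    rw [Finset.card_sdiff_add_card_eq_card (Finset.subset_univ _), Finset.card_univ,
      Fintype.card_fin]
  by_contra hcon
  rw [not_le] at hcon
  have hHDR : ((hub G D).card : ℝ) * D ≤ 2 * e := by exact_mod_cast hHD
  have hkeyR : ((k : ℝ) + 1) * ((univ \ hub G D).card : ℝ) ≤ 2 * e + C := by exact_mod_cast hkey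
  have hBcR : ((univ \ hub G D).card : ℝ) + ((hub G D).card : ℝ) = n := by exact_mod_cast hBc
  generalize ((hub G D).card : ℝ) = h at *
  generalize ((univ \ hub G D).card : ℝ) = b at *
  have hkR : (0 : ℝ) < (k : ℝ) + 1 := by positivity
  -- `h D ≤ (k + 1) n`
  have a1 : h * D ≤ (k + 1) * n := by
    have : 0 ≤ ε * n := by positivity
    nlinarith
  -- `(k + 1) h ≤ ε n`
  have a2 : ((k : ℝ) + 1) ^ 2 ≤ D * ε := by
    rw [div_lt_iff₀ hε] at hD
    exact hD.le
  have a3 : ((k : ℝ) + 1) * h ≤ ε * n := by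
    have b1 : D * (((k : ℝ) + 1) * h) ≤ D * (ε * n) := by
      calc D * (((k : ℝ) + 1) * h) = ((k : ℝ) + 1) * (h * D) := by ring
        _ ≤ ((k : ℝ) + 1) * ((k + 1) * n) := mul_le_mul_of_nonneg_left a1 hkR.le
        _ = ((k : ℝ) + 1) ^ 2 * n := by ring
        _ ≤ (D * ε) * n := mul_le_mul_of_nonneg_right a2 hnR
        _ = D * (ε * n) := by ring
    exact le_of_mul_le_mul_left b1 hDpos
  have a4 : (C : ℝ) ≤ ε * n := by
    rw [div_le_iff₀ hε] at hN
    have : (N : ℝ) ≤ n := by exact_mod_cast hn1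
    nlinarith
  nlinarith

end Pool.Agent.K1H96.DF
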