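import Pool.Agent.K1H22.DF.Stm5
import Pool.Agent.K1H96.DF.L4

/-! # Vertex-fault-tolerant graphs of diameter five: the discharging -/

set_option autoImplicit false

open Finset

namespace Pool.Agent.K1H96.DF

open Pool.Agent.K1H22.DF

theorem min_sum_le {ι : Type*} (s : Finset ι) (f : ι → ℕ) (k : ℕ) :
    min (∑ c ∈ s, f c) k ≤ ∑ c ∈ s, min (f c) k := by
  classical
  induction s using Finset.induction_on with
  | empty => simp
  | insert a s ha ih =>
    rw [sum_insert ha, sum_insert ha]
    omega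

theorem S2_card_le {V : Type} [Fintype V] [DecidableEq V] (G : SimpleGraph V)
    [DecidableRel G.Adj] (D : ℕ) (v : V) :
    (S2 G D v).card ≤ (hn G D v).card +
      ∑ c ∈ (G.neighborFinset v).filter (fun c => c ∉ hub G D), (hn G D c).card := by
  unfold S2
  exact (card_union_le _ _).trans (Nat.add_le_add_left card_biUnion_le _)

theorem arith (k j b s σ x e : ℕ) (hk : 1 ≤ k) (hdeg : k ≤ j + b) (hs : min σ k ≤ s)
    (hx : x ≤ j + σ) (hbad : e = 1 ∨ ¬ ((j = 0 ∧ x < k) ∨ (j ≠ 0 ∧ x + j ≤ k))) :
    k * (k + 1) + min j k * b ≤ k * (2 * j + b) + s + k * e := by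
  rcases Nat.lt_or_ge j k with hjk | hjk
  · rw [min_eq_left hjk.le]
    -- `b ≥ k - j`
    obtain ⟨d, rfl⟩ := Nat.exists_eq_add_of_lt hjk
    obtain ⟨b', rfl⟩ : ∃ b', b = d + 1 + b' := ⟨b - (d + 1), by omega⟩
    have hmain : (j + d + 1) + (2 * j) * (d + 1) + (d + 1) * (d + 1) + (d + 1) * b' + j * j
        = (j + d + 1) + (j + d + 1) * (j + d + 1) + (d + 1) * b' := by ring
    have hgoal : (j + d + 1) ≤ j * j + s + (j + d + 1) * e → (j + d + 1) * ((j + d + 1) + 1) + j * (d + 1 + b')
        ≤ (j + d + 1) * (2 * j + (d + 1 + b')) + s + (j + d + 1) * e := by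
      intro h
      have e1 : (j + d + 1) * (2 * j + (d + 1 + b')) = (j + d + 1) * (j + d + 1) + j * (d + 1 + b')
          + j * j + (d + 1) * b' := by ring
      rw [e1, mul_add, mul_one]
      have : 0 ≤ (d + 1) * b' := Nat.zero_le _
      omega
    apply hgoal
    rcases hbad with rfl | hbad
    · omega
    · push Not at hbad
      rcases Nat.eq_zero_or_pos j with h0 | h0
      · subst h0
        have := hbad.1 rfl
        omega
      · have h1 := hbad.2 (by omega)
        -- `s ≥ k + 1 - 2 j`
        have h2 : j + d + 1 + 1 ≤ s + 2 * j := by omega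
        have h3 : 2 * j ≤ j * j + 1 := by nlinarith [sq_nonneg ((j : ℤ) - 1)]
        omega
  · rw [min_eq_right hjk]
    have h1 : k * (k + 1) ≤ k * (2 * j) := Nat.mul_le_mul_left _ (by omega)
    have h2 : k * (2 * j + b) = k * (2 * j) + k * b := by ring
    rw [h2]
    omega

theorem t_DISCH : S_DISCH := by
  intro V _ _ G _ D k hk hmin
  obtain ⟨B, hB⟩ : ∃ B, B = univ.filter (fun v => v ∉ hub G D) := ⟨_, rfl⟩
  rw [← hB]
  have mB : ∀ v, v ∈ B ↔ v ∉ hub G D := by
    intro v; rw [hB]; simp
  let NB : V → Finset V := fun v => (G.neighborFinset v).filter (fun c => c ∉ hub G D)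
  let jb : V → ℕ := fun v => min (hn G D v).card k
  have hdegv : ∀ v, G.degree v = (hn G D v).card + (NB v).card := by
    intro v
    rw [← G.card_neighborFinset_eq_degree]
    exact (card_filter_add_card_filter_not (s := G.neighborFinset v)
      (fun x => x ∈ hub G D)).symm
  have hsplit : ∑ v, G.degree v = ∑ v ∈ B, G.degree v + ∑ v ∈ hub G D, G.degree v := by
    have : B = univ \ hub G D := by ext v; rw [mB]; simp
    rw [this, sum_sdiff (subset_univ _)]
  have hH : ∑ v ∈ B, (hn G D v).card ≤ ∑ v ∈ hub G D, G.degree v := by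
    unfold hn
    rw [dc G B (hub G D)]
    apply sum_le_sum
    intro x _
    rw [← G.card_neighborFinset_eq_degree]
    exact card_filter_le _ _
  have hsym : ∑ v ∈ B, jb v * (NB v).card = ∑ v ∈ B, ∑ c ∈ NB v, jb c := by
    have h1 : ∑ v ∈ B, ∑ c ∈ NB v, jb c = ∑ c ∈ B, ∑ v ∈ NB c, jb c := by
      apply sum_comm'
      intro x y
      simp only [NB, mem_filter, SimpleGraph.mem_neighborFinset, mB]
      rw [G.adj_comm]
      tauto
    rw [h1]
    refine sum_congr rfl fun v _ => ?_
    rw [sum_const, smul_eq_mul, mul_comm]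
  have hpt : ∀ v ∈ B, k * (k + 1) + jb v * (NB v).card ≤
      k * (2 * (hn G D v).card + (NB v).card) + (∑ c ∈ NB v, jb c) +
        k * (if v ∈ bad G D k then 1 else 0) := by
    intro v hv
    refine arith k (hn G D v).card (NB v).card (∑ c ∈ NB v, jb c) (∑ c ∈ NB v, (hn G D c).card)
      (S2 G D v).card _ hk ?_ (min_sum_le _ _ _) (S2_card_le G D v) ?_
    · rw [← hdegv]; exact hmin v
    · by_cases hb : v ∈ bad G D k
      · left; rw [if_pos hb]
      · right
        intro h
        apply hb
        unfold bad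
        rw [mem_filter]
        refine ⟨mem_univ _, (mB v).mp hv, ?_⟩
        rwa [card_eq_zero, Ne, card_eq_zero] at h
  have hsum := sum_le_sum hpt
  rw [sum_add_distrib, sum_add_distrib, sum_add_distrib, hsym, sum_const, smul_eq_mul,
    ← mul_sum, ← mul_sum] at hsum
  have hbadc : ∑ v ∈ B, (if v ∈ bad G D k then 1 else 0) ≤ (bad G D k).card := by
    rw [← card_filter]
    exact card_le_card fun v hv => (mem_filter.mp hv).2
  have hsum2 : ∑ v ∈ B, (2 * (hn G D v).card + (NB v).card) =
      ∑ v ∈ B, G.degree v + ∑ v ∈ B, (hn G D v).card := by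
    rw [← sum_add_distrib]
    refine sum_congr rfl fun v _ => ?_
    rw [hdegv v]; ring
  have h3 : k * ((k + 1) * B.card) ≤ k * ((∑ v, G.degree v) + (bad G D k).card) := by
    calc k * ((k + 1) * B.card) = B.card * (k * (k + 1)) := by ring
      _ ≤ k * ∑ v ∈ B, (2 * (hn G D v).card + (NB v).card) +
          k * ∑ v ∈ B, (if v ∈ bad G D k then 1 else 0) := by omega
      _ = k * (∑ v ∈ B, (2 * (hn G D v).card + (NB v).card) +
          ∑ v ∈ B, (if v ∈ bad G D k then 1 else 0)) := by ring
      _ ≤ k * ((∑ v, G.degree v) + (bad G D k).card) := by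
          apply Nat.mul_le_mul_left
          rw [hsum2, hsplit]
          omega
  exact Nat.le_of_mul_le_mul_left h3 (by omega)

end Pool.Agent.K1H96.DF
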